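import Mathlib

/-!
MP_711a76_lc: weight-preserving isometries of stabilizer codes of distance above 2 need not extend
to monomial transformations: the five-qubit code.
-/

set_option autoImplicit false
set_option maxRecDepth 100000

namespace Pool.Agent.Results.MP_711a76_lc.FiveQubit

open Finset

/-- `A_q^n` with `A_q = F_q^2`. -/
abbrev Vec (q n : ℕ) : Type := Fin n → ZMod q × ZMod q

/-- The symplectic form on `A_q^n`. -/
def sympl {q n : ℕ} (u v : Vec q n) : ZMod q :=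
  ∑ i, ((u i).1 * (v i).2 - (v i).1 * (u i).2)

/-- The weight: the number of nonzero coordinates. -/
def wt {q n : ℕ} (u : Vec q n) : ℕ := (univ.filter fun i => u i ≠ 0).card

/-- The symplectic dual `C^⊥`. -/
def dual {q n : ℕ} (C : Submodule (ZMod q) (Vec q n)) : Set (Vec q n) :=
  {u | ∀ v ∈ C, sympl u v = 0}

/-- Stabilizer codes: `C ⊆ C^⊥`. -/
def IsStabilizer {q n : ℕ} (C : Submodule (ZMod q) (Vec q n)) : Prop := (C : Set (Vec q n)) ⊆ dual C

open Classical in
/-- The distance `d(C)`. -/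
noncomputable def dist {q n : ℕ} (C : Submodule (ZMod q) (Vec q n)) : ℕ :=
  if (C : Set (Vec q n)) = dual C then sInf {m | ∃ u ∈ C, u ≠ 0 ∧ wt u = m}
  else sInf {m | ∃ u ∈ dual C, u ∉ C ∧ wt u = m}

/-- `f` restricts to a weight-preserving isometry `C → D`: a linear bijection from `C` onto `D`
with `wt (f c) = wt c` for `c ∈ C` (the values of `f` outside `C` play no role). -/
def IsIsometry {q n : ℕ} (C D : Submodule (ZMod q) (Vec q n)) (f : Vec q n → Vec q n) : Prop :=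
  Set.BijOn f C D ∧ (∀ u ∈ C, ∀ v ∈ C, f (u + v) = f u + f v) ∧
    (∀ a : ZMod q, ∀ u ∈ C, f (a • u) = a • f u) ∧ ∀ u ∈ C, wt (f u) = wt u

/-- Monomial transformations `(u_1, …, u_n) ↦ (g_1 u_{π⁻¹ 1}, …, g_n u_{π⁻¹ n})` with `π ∈ S_n`
and `g_i` an invertible linear map of `F_q^2`. -/
def IsMonomial {q n : ℕ} (M : Vec q n → Vec q n) : Prop :=
  ∃ (π : Equiv.Perm (Fin n)) (g : Fin n → (ZMod q × ZMod q) ≃ₗ[ZMod q] (ZMod q × ZMod q)),
    ∀ u i, M u i = g i (u (π⁻¹ i))

/-- Generators `XZZXI, IXZZX, XIXZZ, ZXIXZ` (`X = (1,0)`, `Z = (0,1)`). -/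
def gen : Fin 4 → Vec 2 5 :=
  ![![(1,0),(0,1),(0,1),(1,0),(0,0)], ![(0,0),(1,0),(0,1),(0,1),(1,0)],
    ![(1,0),(0,0),(1,0),(0,1),(0,1)], ![(0,1),(1,0),(0,0),(1,0),(0,1)]]

/-- The stabilizer element with coordinates `v`. -/
def el (v : Fin 4 → ZMod 2) : Vec 2 5 := ∑ k, v k • gen k

/-- `el` as a linear map. -/
def elL : (Fin 4 → ZMod 2) →ₗ[ZMod 2] Vec 2 5 where
  toFun := el
  map_add' u v := by simp [el, add_smul, Finset.sum_add_distrib]
  map_smul' c v := by simp [el, mul_smul, Finset.smul_sum]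

/-- The code. -/
def C : Submodule (ZMod 2) (Vec 2 5) := LinearMap.range elL

theorem el_inj : ∀ v : Fin 4 → ZMod 2, el v = 0 → v = 0 := by decide +kernel

theorem elL_inj : Function.Injective elL := by
  rw [injective_iff_map_eq_zero]
  exact el_inj

theorem wt_el : ∀ v : Fin 4 → ZMod 2, v ≠ 0 → wt (el v) = 4 := by decide +kernel

theorem orth : ∀ v w : Fin 4 → ZMod 2, sympl (el v) (el w) = 0 := by decide +kernel

theorem dual_wt : ∀ u : Vec 2 5, (∀ k, sympl u (gen k) = 0) → wt u ≤ 2 → u = 0 := by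
  decide +kernel

theorem gen_mem (k : Fin 4) : gen k ∈ C := by
  refine ⟨Pi.single k 1, ?_⟩
  change el _ = _
  simp [el, Pi.single_apply]

theorem isStab : IsStabilizer C := by
  rintro _ ⟨v, rfl⟩ _ ⟨w, rfl⟩
  exact orth v w

def XX : Vec 2 5 := fun _ => (1, 0)

theorem XX_el : ∀ v : Fin 4 → ZMod 2, sympl XX (el v) = 0 ∧ el v ≠ XX := by decide +kernel

theorem XX_mem : XX ∈ dual C ∧ XX ∉ C := by
  constructor
  · rintro _ ⟨v, rfl⟩
    exact (XX_el v).1
  · rintro ⟨v, hv⟩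
    exact (XX_el v).2 hv

theorem dist_C : 2 < dist C := by
  have hne : (C : Set (Vec 2 5)) ≠ dual C := by
    intro h
    have := XX_mem
    rw [← h] at this
    exact this.2 this.1
  rw [dist, if_neg hne]
  refine Nat.lt_of_lt_of_le (show 2 < 3 by norm_num)
    (le_csInf (Set.nonempty_of_mem (x := wt XX) ⟨XX, XX_mem.1, XX_mem.2, rfl⟩) ?_)
  rintro m ⟨u, hu, huC, rfl⟩
  by_contra hlt
  have := dual_wt u (fun k => hu _ (gen_mem k)) (by omega)
  exact huC (this ▸ C.zero_mem)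

/-- A linear automorphism of `F_2^4` (a transvection). -/
def gg : (Fin 4 → ZMod 2) ≃ₗ[ZMod 2] (Fin 4 → ZMod 2) where
  toFun v := ![v 0 + v 1, v 1, v 2, v 3]
  map_add' u v := by
    funext i
    fin_cases i <;> (simp; try ring)
  map_smul' c v := by
    funext i
    fin_cases i <;> (simp; try ring)
  invFun v := ![v 0 + v 1, v 1, v 2, v 3]
  left_inv := by unfold Function.LeftInverse; decide +kernel
  right_inv := by unfold Function.RightInverse Function.LeftInverse; decide +kernel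

/-- Coordinates on the code. -/
noncomputable def e : (Fin 4 → ZMod 2) ≃ₗ[ZMod 2] C := LinearEquiv.ofInjective elL elL_inj

theorem el_mem (v : Fin 4 → ZMod 2) : el v ∈ C := ⟨v, rfl⟩

theorem e_apply (v : Fin 4 → ZMod 2) : e v = ⟨el v, el_mem v⟩ := rfl

/-- The isometry `C → C`. -/
noncomputable def iso : C ≃ₗ[ZMod 2] C := (e.symm.trans gg).trans e

theorem iso_el (v : Fin 4 → ZMod 2) : (iso ⟨el v, el_mem v⟩ : Vec 2 5) = el (gg v) := by
  rw [← e_apply, iso, LinearEquiv.trans_apply, LinearEquiv.trans_apply,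
    LinearEquiv.symm_apply_apply, e_apply]

theorem key : ∃ v w : Fin 4 → ZMod 2, (∃ j, el v j = 0 ∧ el w j = 0) ∧
    ∀ i, ¬ (el (![v 0 + v 1, v 1, v 2, v 3]) i = 0 ∧ el (![w 0 + w 1, w 1, w 2, w 3]) i = 0) := by
  decide +kernel

/-- The isometry as a map on `A_2^5` (`0` outside `C`). -/
noncomputable def ff (u : Vec 2 5) : Vec 2 5 := by
  classical
  exact if h : u ∈ C then (iso ⟨u, h⟩ : Vec 2 5) else 0

theorem ff_of_mem {u : Vec 2 5} (h : u ∈ C) : ff u = (iso ⟨u, h⟩ : Vec 2 5) := by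
  unfold ff
  rw [dif_pos h]

theorem ff_el (v : Fin 4 → ZMod 2) : ff (el v) = el (gg v) := by
  rw [ff_of_mem (el_mem v), iso_el]

theorem ff_isometry : IsIsometry C C ff := by
  refine ⟨⟨?_, ?_, ?_⟩, ?_, ?_, ?_⟩
  · intro u hu
    rw [SetLike.mem_coe] at hu ⊢
    rw [ff_of_mem hu]
    exact (iso ⟨u, hu⟩).2
  · intro u hu v hv h
    rw [SetLike.mem_coe] at hu hv
    rw [ff_of_mem hu, ff_of_mem hv] at h
    have := iso.injective (Subtype.ext h)
    exact congrArg Subtype.val this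
  · intro u hu
    obtain ⟨c, hc⟩ := iso.surjective ⟨u, hu⟩
    refine ⟨c, c.2, ?_⟩
    rw [ff_of_mem c.2, hc]
  · intro u hu v hv
    rw [ff_of_mem hu, ff_of_mem hv, ff_of_mem (C.add_mem hu hv)]
    have : (⟨u + v, C.add_mem hu hv⟩ : C) = ⟨u, hu⟩ + ⟨v, hv⟩ := rfl
    rw [this, map_add]
    rfl
  · intro a u hu
    rw [ff_of_mem hu, ff_of_mem (C.smul_mem a hu)]
    have : (⟨a • u, C.smul_mem a hu⟩ : C) = a • ⟨u, hu⟩ := rfl
    rw [this, map_smul]
    rfl
  · rintro _ ⟨v, rfl⟩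
    change wt (ff (el v)) = wt (el v)
    rw [ff_el]
    by_cases hv : v = 0
    · subst hv
      rw [map_zero]
    · rw [wt_el v hv, wt_el]
      intro h
      exact hv (by simpa using h)

/-- There are a prime `q`, a length `n` and stabilizer codes `C, D ≤ A_q^n`, both of distance
at least `3`, with a weight-preserving isometry `C → D` that extends to no monomial transformation.
(Here `q = 2`, `n = 5` and `C = D` is the five-qubit code.) -/
theorem result : ∃ (q n : ℕ), q.Prime ∧ ∃ C D : Submodule (ZMod q) (Vec q n),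
    IsStabilizer C ∧ IsStabilizer D ∧ 2 < dist C ∧ 2 < dist D ∧
    ∃ f : Vec q n → Vec q n, IsIsometry C D f ∧
      ¬ ∃ M : Vec q n → Vec q n, IsMonomial M ∧ ∀ c ∈ C, M c = f c := by
  refine ⟨2, 5, Nat.prime_two, C, C, isStab, isStab, dist_C, dist_C, ff, ff_isometry, ?_⟩
  rintro ⟨M, ⟨π, g, hM⟩, h⟩
  obtain ⟨v, w, ⟨j, hv, hw⟩, hno⟩ := key
  have hinv : π⁻¹ (π j) = j := by simp
  apply hno (π j)
  constructor
  · have h1 := h (el v) (el_mem v)
    rw [ff_el] at h1
    have h2 := hM (el v) (π j)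
    rw [hinv, hv, map_zero, h1] at h2
    exact h2
  · have h1 := h (el w) (el_mem w)
    rw [ff_el] at h1
    have h2 := hM (el w) (π j)
    rw [hinv, hw, map_zero, h1] at h2
    exact h2

end Pool.Agent.Results.MP_711a76_lc.FiveQubit
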